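import Pool.Agent.GM91.Sum

/-!
Vanishing of the sums `SS c l t`.

* `exists_even`: a non-empty set `D₀` that touches at most `|D₀|` levels (of the two allowed slots of its elements) contains a
  non-empty set `D` in which all levels have even degree.  Proof: the `2 ^ |D₀|` subsets have at most `2 ^ (|V| - 1)` patterns of
  parities outside one level; two subsets with the same pattern; the total degree of a set is even.
* `vanish_flat`: the sum is zero if `2 r G ≤ |{e ∈ G | t e = k}|` for some `G` and `c` depends on the block `k` only.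
* `vanish_mono`: the sum is zero if `c` is constant on the valid maps.
-/

set_option autoImplicit false

namespace Pool.Agent.GM91

open Finset Pool.Agent.DT3 Pool.Agent.CF98

variable {β : Type*} [Fintype β] [DecidableEq β] {r : Finset β → ℕ} {f : ℕ}

omit [Fintype β] in
private theorem card_filter_symm {P : β → Prop} [DecidablePred P] (D₁ D₂ : Finset β) :
    (D₁.filter P).card + (D₂.filter P).card =
      ((D₁ \ D₂ ∪ D₂ \ D₁).filter P).card + 2 * ((D₁ ∩ D₂).filter P).card := by
  have h1 : (D₁.filter P).card = ((D₁ \ D₂).filter P).card + ((D₁ ∩ D₂).filter P).card := by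
    rw [← card_union_of_disjoint, ← filter_union, sdiff_union_inter]
    rw [disjoint_left]
    intro x hx hx'
    rw [mem_filter, mem_sdiff] at hx
    rw [mem_filter, mem_inter] at hx'
    exact hx.1.2 hx'.1.2
  have h2 : (D₂.filter P).card = ((D₂ \ D₁).filter P).card + ((D₁ ∩ D₂).filter P).card := by
    rw [inter_comm, ← card_union_of_disjoint, ← filter_union, sdiff_union_inter]
    rw [disjoint_left]
    intro x hx hx'
    rw [mem_filter, mem_sdiff] at hx
    rw [mem_filter, mem_inter] at hx'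
    exact hx.1.2 hx'.1.2
  have h3 : ((D₁ \ D₂ ∪ D₂ \ D₁).filter P).card =
      ((D₁ \ D₂).filter P).card + ((D₂ \ D₁).filter P).card := by
    rw [filter_union, card_union_of_disjoint]
    rw [disjoint_left]
    intro x hx hx'
    rw [mem_filter, mem_sdiff] at hx hx'
    exact hx.1.2 hx'.1.1
  omega

private theorem card_ne (k : Fin 3) : (univ.filter fun i : Fin 3 => i ≠ k).card = 2 := by
  revert k
  decide

omit [Fintype β] in
theorem exists_even {l : Fin 3 → β → ℕ} {t : β → Fin 3} {D₀ : Finset β} (hne : D₀.Nonempty)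
    (V : Finset (Fin 3 × ℕ)) (hV : ∀ e ∈ D₀, ∀ i, i ≠ t e → (i, l i e) ∈ V)
    (hc : V.card ≤ D₀.card) :
    ∃ D ⊆ D₀, D.Nonempty ∧
      ∀ v : Fin 3 × ℕ, Even ((D.filter fun e => v.1 ≠ t e ∧ l v.1 e = v.2).card) := by
  classical
  -- the total degree
  have htot : ∀ D ⊆ D₀, ∑ v ∈ V, (D.filter fun e => v.1 ≠ t e ∧ l v.1 e = v.2).card = 2 * D.card := by
    intro D hD
    have h1 := Finset.sum_card_bipartiteAbove_eq_sum_card_bipartiteBelow (s := V) (t := D)
      (fun (v : Fin 3 × ℕ) (e : β) => v.1 ≠ t e ∧ l v.1 e = v.2)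
    unfold bipartiteAbove bipartiteBelow at h1
    rw [h1]
    rw [sum_congr rfl (g := fun _ => 2), sum_const, smul_eq_mul, mul_comm]
    intro e he
    rw [← card_ne (t e), ← card_image_of_injective (univ.filter fun i : Fin 3 => i ≠ t e)
      (f := fun i => (i, l i e)) (fun i j hij => congrArg Prod.fst hij)]
    congr 1
    ext v
    rw [mem_filter, mem_image]
    constructor
    · rintro ⟨_, h3, h4⟩
      refine ⟨v.1, ?_, Prod.ext rfl h4⟩
      rw [mem_filter]
      exact ⟨mem_univ _, h3⟩
    · rintro ⟨i, hi, rfl⟩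
      rw [mem_filter] at hi
      exact ⟨hV e (hD he) i hi.2, hi.2, rfl⟩
  obtain ⟨e₀, he₀⟩ := hne
  obtain ⟨i₀, hi₀⟩ : ∃ i : Fin 3, i ≠ t e₀ := exists_ne _
  have hv₀ := hV e₀ he₀ i₀ hi₀
  set v₀ : Fin 3 × ℕ := (i₀, l i₀ e₀) with hv₀d
  let F : Finset β → Finset (Fin 3 × ℕ) := fun D =>
    (V.erase v₀).filter fun v => Odd ((D.filter fun e => v.1 ≠ t e ∧ l v.1 e = v.2).card)
  have hlt : ((V.erase v₀).powerset).card < (D₀.powerset).card := by
    rw [card_powerset, card_powerset, card_erase_of_mem hv₀]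
    apply Nat.pow_lt_pow_right (by norm_num)
    have : 0 < V.card := card_pos.2 ⟨v₀, hv₀⟩
    omega
  obtain ⟨D₁, hD₁, D₂, hD₂, hne12, hF⟩ := exists_ne_map_eq_of_card_lt_of_maps_to hlt (f := F)
    (fun D _ => mem_coe.2 (mem_powerset.2 (filter_subset _ _)))
  rw [mem_powerset] at hD₁ hD₂
  have hsub : D₁ \ D₂ ∪ D₂ \ D₁ ⊆ D₀ :=
    union_subset (sdiff_subset.trans hD₁) (sdiff_subset.trans hD₂)
  refine ⟨D₁ \ D₂ ∪ D₂ \ D₁, hsub, ?_, ?_⟩
  · rw [nonempty_iff_ne_empty]
    intro h0
    rw [union_eq_empty, sdiff_eq_empty_iff_subset, sdiff_eq_empty_iff_subset] at h0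
    exact hne12 (Subset.antisymm h0.1 h0.2)
  · have hin : ∀ v ∈ V.erase v₀, Even (((D₁ \ D₂ ∪ D₂ \ D₁).filter
        fun e => v.1 ≠ t e ∧ l v.1 e = v.2).card) := by
      intro v hv
      have h1 := card_filter_symm (P := fun e => v.1 ≠ t e ∧ l v.1 e = v.2) D₁ D₂
      have h2 : Odd ((D₁.filter fun e => v.1 ≠ t e ∧ l v.1 e = v.2).card) ↔
          Odd ((D₂.filter fun e => v.1 ≠ t e ∧ l v.1 e = v.2).card) := by
        have h3 : v ∈ F D₁ ↔ v ∈ F D₂ := by rw [hF]
        rw [mem_filter, mem_filter] at h3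
        constructor
        · intro h4
          exact (h3.1 ⟨hv, h4⟩).2
        · intro h4
          exact (h3.2 ⟨hv, h4⟩).2
      rw [Nat.odd_iff, Nat.odd_iff] at h2
      rw [Nat.even_iff]
      omega
    intro v
    by_cases hv : v ∈ V
    · by_cases hv0 : v = v₀
      · have h1 := htot _ hsub
        rw [← add_sum_erase V _ hv₀] at h1
        have h2 : Even (∑ v ∈ V.erase v₀, ((D₁ \ D₂ ∪ D₂ \ D₁).filter
            fun e => v.1 ≠ t e ∧ l v.1 e = v.2).card) :=
          Finset.sum_induction _ _ (fun _ _ => Even.add) Even.zero hin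
        rw [hv0]
        rw [Nat.even_iff] at h2 ⊢
        omega
      · exact hin v (mem_erase.2 ⟨hv0, hv⟩)
    · have h1 : ((D₁ \ D₂ ∪ D₂ \ D₁).filter fun e => v.1 ≠ t e ∧ l v.1 e = v.2) = ∅ := by
        rw [filter_eq_empty_iff]
        rintro e he ⟨h2, h3⟩
        apply hv
        have h4 := hV e (hsub he) v.1 h2
        rwa [h3] at h4
      rw [h1, card_empty]
      exact Even.zero

/-- The sum is zero if `2 r G ≤ |{e ∈ G | t e = k}|`. -/
theorem vanish_flat (c : (β → Fin 3) → ZMod 2) {l : Fin 3 → β → ℕ} (hl : ∀ i, Lev r (l i))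
    {t : β → Fin 3} {k : Fin 3} {G : Finset β} (hne : (G.filter fun e => t e = k).Nonempty)
    (hG : 2 * r G ≤ (G.filter fun e => t e = k).card)
    (hc : ∀ σ σ', Val l t σ → Val l t σ' → blk σ k = blk σ' k → c σ = c σ') : SS c l t = 0 := by
  classical
  obtain ⟨D, hD, hDne, hev⟩ := exists_even (l := l) (t := t) hne
    ((univ.filter fun i : Fin 3 => i ≠ k).biUnion fun i => (G.image (l i)).image (Prod.mk i)) (by
      intro e he i hi
      rw [mem_filter] at he
      rw [mem_biUnion]
      refine ⟨i, mem_filter.2 ⟨mem_univ _, he.2 ▸ hi⟩, ?_⟩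
      exact mem_image_of_mem _ (mem_image_of_mem _ he.1)) (by
      refine (card_biUnion_le).trans (le_trans ?_ hG)
      rw [← card_ne k, ← smul_eq_mul, ← sum_const]
      exact sum_le_sum fun i _ => card_image_le.trans (hl i G))
  refine sum_switch c hDne hev ?_
  intro σ h1 h2
  refine hc _ _ h2 h1 ?_
  ext e
  rw [mem_blk, mem_blk]
  by_cases he : e ∈ D
  · have h3 := (mem_filter.1 (hD he)).2
    have h4 := h1.1 e
    have h5 := h2.1 e
    rw [h3] at h4 h5
    exact ⟨fun h => absurd h h5, fun h => absurd h h4⟩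
  · have h3 : sw t D σ e = σ e := if_neg he
    rw [h3]

/-- The sum is zero if `c` is constant on the valid maps. -/
theorem vanish_mono (hE : Env r univ f) (hne : (univ : Finset β).Nonempty)
    (c : (β → Fin 3) → ZMod 2) {l : Fin 3 → β → ℕ} (hl : ∀ i, Lev r (l i))
    {t : β → Fin 3} (hc : ∀ σ σ', Val l t σ → Val l t σ' → c σ = c σ') : SS c l t = 0 := by
  classical
  obtain ⟨D, hD, hDne, hev⟩ := exists_even (l := l) (t := t) hne
    ((univ : Finset (Fin 3)).biUnion fun i => ((univ : Finset β).image (l i)).image (Prod.mk i)) (by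
      intro e he i hi
      rw [mem_biUnion]
      refine ⟨i, mem_univ _, ?_⟩
      exact mem_image_of_mem _ (mem_image_of_mem _ he)) (by
      rw [hE.card]
      refine (card_biUnion_le).trans ?_
      have h2 : ∀ i, (((univ : Finset β).image (l i)).image (Prod.mk i)).card ≤ f := by
        intro i
        have h1 := hl i univ
        rw [hE.rank] at h1
        exact card_image_le.trans h1
      rw [Fin.sum_univ_three]
      have h3 := h2 0
      have h4 := h2 1
      have h5 := h2 2
      omega)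
  exact sum_switch c hDne hev fun σ h1 h2 => hc _ _ h2 h1

end Pool.Agent.GM91
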