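import Pool.Agent.GM91.Even

/-!
The extremal principle (note 2727): if `SS c l t` is not always zero, choose `l`, `t`, `k` with `SS c l t ≠ 0` and `|{e | t e = k}|` as
large as possible, and let `X = {e | t e ≠ k}`.  Then

* `|G \ X| + 1 ≤ 2 r G` for all non-empty `G` (`vanish_flat`), in particular `f < |X|`;
* the types of the elements of `X` can be changed to any other type `≠ k` (`type_rel`), so `|X| ≤ 3 f - |X|`;
* not all good bases inside `X` have the same value of `c` (`vanish_mono`).
-/

set_option autoImplicit false

namespace Pool.Agent.GM91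

open Finset Pool.Agent.DT3 Pool.Agent.CF98

variable {β : Type*} [Fintype β] [DecidableEq β] {r : Finset β → ℕ} {f : ℕ}

/-- The local hypothesis: `c` is constant on the states whose block `i` is contained in `X`. -/
def Loc (r : Finset β → ℕ) (f : ℕ) (c : (β → Fin 3) → ZMod 2) : Prop :=
  ∀ X : Finset β, (∀ G : Finset β, G.Nonempty → (G \ X).card + 1 ≤ 2 * r G) → f < X.card →
    2 * X.card ≤ 3 * f → ∀ i σ σ', IsSt r f σ → IsSt r f σ' → blk σ i ⊆ X → blk σ' i ⊆ X → c σ = c σ'

private theorem three_vals : ∀ (g : Fin 3 → ZMod 2) (k a j : Fin 3), g 0 + g 1 + g 2 = 0 → g k = 0 →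
    g a ≠ 0 → a ≠ k → j ≠ k → g j ≠ 0 := by decide

theorem ss_zero (hE : Env r univ f) (hne : (univ : Finset β).Nonempty) (c : (β → Fin 3) → ZMod 2)
    (hc : ∀ i σ σ', IsSt r f σ → IsSt r f σ' → blk σ i = blk σ' i → c σ = c σ')
    (hloc : Loc r f c) (l : Fin 3 → β → ℕ) (t : β → Fin 3) (hl : ∀ i, Lev r (l i)) :
    SS c l t = 0 := by
  classical
  by_contra hss
  let P : ℕ → Prop := fun n => ∃ (l : Fin 3 → β → ℕ) (t : β → Fin 3) (k : Fin 3),
    (∀ i, Lev r (l i)) ∧ SS c l t ≠ 0 ∧ (univ.filter fun e => t e = k).card = n
  have hP0 : P (univ.filter fun e => t e = 0).card := ⟨l, t, 0, hl, hss, rfl⟩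
  have hbd : ∀ n, P n → n ≤ (univ : Finset β).card := by
    rintro n ⟨l, t, k, -, -, rfl⟩
    exact card_le_card (filter_subset _ _)
  obtain ⟨m, hm, hmax⟩ : ∃ m, P m ∧ ∀ n, P n → n ≤ m :=
    ⟨Nat.findGreatest P (univ : Finset β).card, Nat.findGreatest_spec (hbd _ hP0) hP0,
      fun n hn => Nat.le_findGreatest (hbd n hn) hn⟩
  clear hss hP0 hl
  obtain ⟨l, t, k, hl, hss, hcard⟩ := hm
  -- change the types outside `k`
  have hflip : ∀ j, j ≠ k → ∀ Y : Finset β, (∀ e ∈ Y, t e ≠ k) →
      SS c l (fun e => if e ∈ Y then j else t e) ≠ 0 := by
    intro j hj Y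
    induction Y using Finset.induction_on with
    | empty =>
      intro _
      have h1 : (fun e => if e ∈ (∅ : Finset β) then j else t e) = t := by
        funext e
        exact if_neg (notMem_empty e)
      rw [h1]
      exact hss
    | insert e Y he ih =>
      intro hY
      have h0 := ih fun x hx => hY x (mem_insert_of_mem hx)
      set t' : β → Fin 3 := fun e => if e ∈ Y then j else t e with ht'
      have h1 : (fun x => if x ∈ insert e Y then j else t x) = Function.update t' e j := by
        funext x
        by_cases hx : x = e
        · subst hx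
          rw [Function.update_self, if_pos (mem_insert_self _ _)]
        · rw [Function.update_of_ne hx]
          by_cases hxY : x ∈ Y
          · rw [if_pos (mem_insert_of_mem hxY), ht']
            exact (if_pos hxY).symm
          · rw [if_neg (by rw [mem_insert]; tauto), ht']
            exact (if_neg hxY).symm
      have h2 : t' e = t e := if_neg he
      have h3 : Function.update t' e (t e) = t' := by
        rw [← h2]
        exact Function.update_eq_self e t'
      have h4 : SS c l (Function.update t' e k) = 0 := by
        by_contra h5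
        have h6 := hmax _ ⟨l, Function.update t' e k, k, hl, h5, rfl⟩
        have h7 : (univ.filter fun x => Function.update t' e k x = k) =
            insert e (univ.filter fun x => t x = k) := by
          ext x
          rw [mem_filter, mem_insert, mem_filter]
          by_cases hx : x = e
          · subst hx
            rw [Function.update_self]
            simp
          · rw [Function.update_of_ne hx]
            by_cases hxY : x ∈ Y
            · have h8 : t' x = j := if_pos hxY
              have h9 := hY x (mem_insert_of_mem hxY)
              rw [h8]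
              tauto
            · have h8 : t' x = t x := if_neg hxY
              rw [h8]
              tauto
        have h8 : e ∉ (univ.filter fun x => t x = k) := by
          rw [mem_filter]
          exact fun h => hY e (mem_insert_self _ _) h.2
        rw [h7, card_insert_of_notMem h8, hcard] at h6
        omega
      rw [h1]
      exact three_vals (fun i => SS c l (Function.update t' e i)) k (t e) j
        (type_rel c l t' e) h4 (by show SS c l (Function.update t' e (t e)) ≠ 0; rw [h3]; exact h0)
        (hY e (mem_insert_self _ _)) hj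
  set X : Finset β := univ.filter fun e => t e ≠ k with hX
  have hGX : ∀ G : Finset β, G \ X = G.filter fun e => t e = k := by
    intro G
    ext e
    rw [mem_sdiff, hX, mem_filter, mem_filter]
    simp
  have hX1 : ∀ G : Finset β, G.Nonempty → (G \ X).card + 1 ≤ 2 * r G := by
    intro G hG
    rw [hGX]
    by_contra hlt
    have h1 := hE.three G (subset_univ G)
    have h2 := card_pos.2 hG
    apply hss
    refine vanish_flat c hl (k := k) (G := G) ?_ (by omega) ?_
    · rw [← card_pos]
      omega
    · intro σ σ' hσ hσ' hb
      exact hc k σ σ' (val_st hE hl hσ) (val_st hE hl hσ') hb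
  have hXc : X.card + (univ.filter fun e => t e = k).card = 3 * f := by
    rw [← hE.card, ← hGX univ, add_comm]
    exact card_sdiff_add_card_eq_card (subset_univ X)
  have hX2 : f < X.card := by
    have h1 := hX1 univ hne
    rw [hGX, hE.rank] at h1
    omega
  have hX3 : 2 * X.card ≤ 3 * f := by
    obtain ⟨j, hj⟩ : ∃ j : Fin 3, j ≠ k := exists_ne _
    have h1 := hmax _ ⟨l, _, j, hl, hflip j hj X (fun e he => (mem_filter.1 he).2), rfl⟩
    have h2 : (univ.filter fun e => (if e ∈ X then j else t e) = j) = X := by
      ext e
      rw [mem_filter]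
      by_cases he : e ∈ X
      · simp [he]
      · have h3 : t e = k := by
          by_contra h4
          exact he (mem_filter.2 ⟨mem_univ _, h4⟩)
        rw [if_neg he, h3]
        exact ⟨fun h => absurd h.2.symm hj, fun h => absurd h he⟩
    rw [h2] at h1
    omega
  apply hss
  refine vanish_mono hE hne c hl ?_
  intro σ σ' hσ hσ'
  refine hloc X hX1 hX2 hX3 k σ σ' (val_st hE hl hσ) (val_st hE hl hσ') ?_ ?_
  · intro e he
    rw [mem_blk] at he
    exact mem_filter.2 ⟨mem_univ _, fun h => hσ.1 e (he.trans h.symm)⟩
  · intro e he
    rw [mem_blk] at he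
    exact mem_filter.2 ⟨mem_univ _, fun h => hσ'.1 e (he.trans h.symm)⟩

end Pool.Agent.GM91
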