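import Pool.Agent.GM91.Sum

/-!
The level function of a basis `T` with times `tm`: the level of `x` is the largest `s` with `x ∈ cl {y ∈ T | s ≤ tm y}`.

* `lv_lev`: it is a level function.
* `lv_self`: the level of `x ∈ T` is `tm x`.
* `lv_elem`: every level is the time of an element of `T`.
* `lv_lt`: if `x` is not in the closure of `{y ∈ T | s ≤ tm y}` then its level is smaller than `s`.
-/

set_option autoImplicit false

namespace Pool.Agent.GM91

open Finset Pool.Agent.DT3 Pool.Agent.CF98

variable {β : Type*} [Fintype β] [DecidableEq β] {r : Finset β → ℕ} {f : ℕ}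

/-- The elements of `T` of time at least `s`. -/
def late (T : Finset β) (tm : β → ℕ) (s : ℕ) : Finset β := T.filter fun y => s ≤ tm y

/-- The level of `x`. -/
def lv (r : Finset β → ℕ) (T : Finset β) (tm : β → ℕ) (x : β) : ℕ :=
  Nat.findGreatest (fun s => r (insert x (late T tm s)) = r (late T tm s)) (univ.sup tm + 1)

omit [Fintype β] [DecidableEq β] in
theorem late_anti (T : Finset β) (tm : β → ℕ) {s s' : ℕ} (h : s ≤ s') :
    late T tm s' ⊆ late T tm s := by
  intro y hy
  rw [late, mem_filter] at hy ⊢
  exact ⟨hy.1, h.trans hy.2⟩

omit [Fintype β] [DecidableEq β] in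
theorem late_sub (T : Finset β) (tm : β → ℕ) (s : ℕ) : late T tm s ⊆ T := filter_subset _ _

omit [DecidableEq β] in
theorem late_empty (T : Finset β) (tm : β → ℕ) {s : ℕ} (h : univ.sup tm < s) :
    late T tm s = ∅ := by
  rw [late, filter_eq_empty_iff]
  intro y _ hy
  have h1 : tm y ≤ univ.sup tm := le_sup (mem_univ y)
  omega

theorem lv_le (hr : RankFn r) {T : Finset β} (hT : r T = r univ) (tm : β → ℕ) (x : β) :
    r (insert x (late T tm (lv r T tm x))) = r (late T tm (lv r T tm x)) := by
  have h0 : r (insert x (late T tm 0)) = r (late T tm 0) := by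
    have h1 : late T tm 0 = T := filter_true_of_mem fun _ _ => Nat.zero_le _
    rw [h1]
    exact le_antisymm (hT ▸ hr.mono _ _ (subset_univ _)) (hr.mono _ _ (subset_insert _ _))
  exact Nat.findGreatest_spec (P := fun s => r (insert x (late T tm s)) = r (late T tm s))
    (Nat.zero_le _) h0

theorem lv_gt (hr : RankFn r) {T : Finset β} {tm : β → ℕ} {x : β} (hx : r {x} = 1) {s : ℕ}
    (hs : lv r T tm x < s) : r (insert x (late T tm s)) ≠ r (late T tm s) := by
  rcases le_or_gt s (univ.sup tm + 1) with h1 | h1
  · exact Nat.findGreatest_is_greatest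
      (P := fun s => r (insert x (late T tm s)) = r (late T tm s)) hs h1
  · rw [late_empty T tm (by omega), insert_empty_eq, hx, hr.empty]
    exact one_ne_zero

theorem lv_bd (hr : RankFn r) {T : Finset β} (hT : r T = r univ) {tm : β → ℕ} {x : β}
    (hx : r {x} = 1) : lv r T tm x < univ.sup tm + 1 := by
  by_contra h
  have h1 := lv_le hr hT tm x
  rw [late_empty T tm (by omega), insert_empty_eq, hx, hr.empty] at h1
  exact one_ne_zero h1

omit [Fintype β] in
theorem ins_up (hr : RankFn r) {A B : Finset β} (hAB : A ⊆ B) {x : β}
    (h : r (insert x A) = r A) : r (insert x B) = r B := by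
  have h1 := hr.submod (insert x A) B
  have h2 : insert x A ∪ B = insert x B := by
    rw [insert_union, union_eq_right.2 hAB]
  have h3 := hr.mono A (insert x A ∩ B) (subset_inter (subset_insert _ _) hAB)
  have h4 := hr.mono B (insert x B) (subset_insert _ _)
  rw [h2] at h1
  omega

theorem lv_lt (hr : RankFn r) {T : Finset β} (hT : r T = r univ) {tm : β → ℕ} {x : β} {s : ℕ}
    (h : r (insert x (late T tm s)) ≠ r (late T tm s)) : lv r T tm x < s := by
  by_contra h1
  exact h (ins_up hr (late_anti T tm (not_lt.1 h1)) (lv_le hr hT tm x))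

theorem lv_self (hr : RankFn r) {T : Finset β} (hT : r T = r univ) (hTc : r T = T.card)
    {tm : β → ℕ} {x : β} (hx : r {x} = 1) (hxT : x ∈ T) : lv r T tm x = tm x := by
  apply le_antisymm
  · by_contra h
    have h1 := lv_le hr hT tm x
    have h2 : x ∉ late T tm (lv r T tm x) := by
      rw [late, mem_filter]
      exact fun h3 => h h3.2
    have h3 := ind_sub hr hTc (late_sub T tm (lv r T tm x))
    have h4 := ind_sub hr hTc (insert_subset hxT (late_sub T tm (lv r T tm x)))
    rw [card_insert_of_notMem h2] at h4
    omega
  · by_contra h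
    have h1 := lv_gt hr hx (not_le.1 h)
    apply h1
    rw [insert_eq_of_mem]
    rw [late, mem_filter]
    exact ⟨hxT, le_rfl⟩

theorem lv_elem (hr : RankFn r) {T : Finset β} (hT : r T = r univ) (tm : β → ℕ) {x : β}
    (hx : r {x} = 1) : ∃ y ∈ T, tm y = lv r T tm x := by
  by_contra h
  push Not at h
  have h1 := lv_gt hr (T := T) (tm := tm) hx (Nat.lt_succ_self _)
  apply h1
  have h2 : late T tm (lv r T tm x).succ = late T tm (lv r T tm x) := by
    apply Subset.antisymm (late_anti T tm (Nat.le_succ _))
    intro y hy
    rw [late, mem_filter] at hy ⊢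
    have := h y hy.1
    exact ⟨hy.1, by omega⟩
  rw [h2]
  exact lv_le hr hT tm x

theorem lv_lev (hr : RankFn r) {T : Finset β} (hT : r T = r univ) (tm : β → ℕ)
    (h1 : ∀ x : β, r {x} = 1) : Lev r (lv r T tm) := by
  intro X
  have key : ∀ k s, univ.sup tm + 1 ≤ s + k →
      ((X.filter fun x => s ≤ lv r T tm x).image (lv r T tm)).card ≤
        r (X.filter fun x => s ≤ lv r T tm x) := by
    intro k
    induction k with
    | zero =>
      intro s hs
      have h2 : (X.filter fun x => s ≤ lv r T tm x) = ∅ := by
        rw [filter_eq_empty_iff]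
        intro x _ hx
        have := lv_bd hr hT (tm := tm) (h1 x)
        omega
      rw [h2, image_empty, card_empty]
      exact Nat.zero_le _
    | succ k ih =>
      intro s hs
      have ih1 := ih (s + 1) (by omega)
      by_cases hx : ∃ x₀ ∈ X, lv r T tm x₀ = s
      · obtain ⟨x₀, hx₀, hx₀s⟩ := hx
        set A := X.filter fun x => s + 1 ≤ lv r T tm x with hA
        set B := X.filter fun x => s ≤ lv r T tm x with hB
        have h2 : B.image (lv r T tm) ⊆ insert s (A.image (lv r T tm)) := by
          intro n hn
          obtain ⟨x, hx, rfl⟩ := mem_image.1 hn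
          rw [hB, mem_filter] at hx
          by_cases h3 : lv r T tm x = s
          · rw [h3]
            exact mem_insert_self _ _
          · apply mem_insert_of_mem
            apply mem_image_of_mem
            rw [hA, mem_filter]
            exact ⟨hx.1, by omega⟩
        have h3 : r (late T tm (s + 1) ∪ A) = r (late T tm (s + 1)) := by
          apply rk_union_eq hr
          intro a ha
          rw [hA, mem_filter] at ha
          exact ins_up hr (late_anti T tm ha.2) (lv_le hr hT tm a)
        have h4 : r (insert x₀ A) ≠ r A := by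
          intro h5
          have h6 := ins_up hr (subset_union_right (s₁ := late T tm (s + 1))) h5
          have h7 := (rk_ins_iff hr subset_union_left h3.symm x₀).2 h6
          exact lv_gt hr (h1 x₀) (by omega) h7
        have h5 := rk_ins_ne hr h4
        have h6 : insert x₀ A ⊆ B := by
          intro x hx
          rcases mem_insert.1 hx with rfl | hx
          · rw [hB, mem_filter]
            exact ⟨hx₀, hx₀s.ge⟩
          · rw [hA, mem_filter] at hx
            rw [hB, mem_filter]
            exact ⟨hx.1, by omega⟩
        have h7 := hr.mono _ _ h6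
        have h8 := card_le_card h2
        have h9 := card_insert_le s (A.image (lv r T tm))
        omega
      · push Not at hx
        have h2 : (X.filter fun x => s ≤ lv r T tm x) = (X.filter fun x => s + 1 ≤ lv r T tm x) := by
          ext x
          rw [mem_filter, mem_filter]
          constructor
          · rintro ⟨h3, h4⟩
            have := hx x h3
            exact ⟨h3, by omega⟩
          · rintro ⟨h3, h4⟩
            exact ⟨h3, by omega⟩
        rw [h2]
        exact ih1
  have h2 := key (univ.sup tm + 1) 0 (by omega)
  have h3 : (X.filter fun x => 0 ≤ lv r T tm x) = X := filter_true_of_mem fun _ _ => Nat.zero_le _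
  rwa [h3] at h2

end Pool.Agent.GM91
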