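import Pool.Agent.GM91.Pair
import Pool.Agent.GM91.Ext
import Pool.Agent.WT59.Final

/-!
`LOCAL ⇒ SW` (notes 2716, 2727 of MP_e6151a_ag).

* `const_of_loc`: on a finite type, the local hypothesis implies that `c` is constant on the states.
* `LOC α`: for every strict system and every `X` with `|G \ X| + 1 ≤ 2 r G` for all non-empty `G`, `f < |X|`, `2 |X| ≤ 3 f`, all good
  bases inside `X` are in one class.
* `sw_of_loc`: `LOC α` implies `SW α`.
-/

set_option autoImplicit false

namespace Pool.Agent.GM91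

open Finset Pool.Agent.DT3 Pool.Agent.CF98 Pool.Agent.WT59

section

variable {β : Type*} [Fintype β] [DecidableEq β] {r : Finset β → ℕ} {f : ℕ}

/-- If all sums vanish then `c` is constant on the states. -/
theorem const_of_ss (hE : Env r univ f) (hs : Strict r univ) (c : (β → Fin 3) → ZMod 2)
    (hss : ∀ l t, (∀ i, Lev r (l i)) → SS c l t = 0) :
    ∀ σ σ', IsSt r f σ → IsSt r f σ' → c σ = c σ' := by
  intro σ σ' h1 h2
  by_contra hne
  obtain ⟨l, t, hl, h3⟩ := exists_ss hE hs c h1 h2 hne
  exact h3 (hss l t hl)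

theorem const_of_loc (hE : Env r univ f) (hs : Strict r univ) (c : (β → Fin 3) → ZMod 2)
    (hc : ∀ i σ σ', IsSt r f σ → IsSt r f σ' → blk σ i = blk σ' i → c σ = c σ')
    (hloc : Loc r f c) : ∀ σ σ', IsSt r f σ → IsSt r f σ' → c σ = c σ' := by
  intro σ σ' h1 h2
  rcases (univ : Finset β).eq_empty_or_nonempty with h0 | hne
  · congr 1
    funext e
    exact absurd (mem_univ e) (h0 ▸ notMem_empty e)
  · exact const_of_ss hE hs c (fun l t hl => ss_zero hE hne c hc hloc l t hl) σ σ' h1 h2

omit [DecidableEq β] in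
theorem blk_disj (σ : β → Fin 3) {i j : Fin 3} (hij : i ≠ j) : Disjoint (blk σ i) (blk σ j) := by
  rw [disjoint_left]
  intro e he he'
  rw [mem_blk] at he he'
  exact hij (he.symm.trans he')

private theorem third_slot : ∀ i j : Fin 3, i ≠ j → ∃ k, k ≠ i ∧ k ≠ j ∧ ∀ a, a ≠ i → a ≠ j → a = k := by
  decide

theorem blk_rest (σ : β → Fin 3) {i j : Fin 3} (hij : i ≠ j) :
    ∃ k, univ \ (blk σ i ∪ blk σ j) = blk σ k := by
  obtain ⟨k, h1, h2, h3⟩ := third_slot i j hij
  refine ⟨k, ?_⟩
  ext e
  rw [mem_sdiff, mem_union, mem_blk, mem_blk, mem_blk]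
  constructor
  · rintro ⟨_, h4⟩
    exact h3 _ (fun h => h4 (Or.inl h)) (fun h => h4 (Or.inr h))
  · intro h4
    refine ⟨mem_univ _, ?_⟩
    rintro (h | h)
    · exact h1 (h4 ▸ h)
    · exact h2 (h4 ▸ h)

theorem st_stp (hE : Env r univ f) {σ : β → Fin 3} (h : IsSt r f σ) {i j : Fin 3} (hij : i ≠ j) :
    Stp r univ f (blk σ i) (blk σ j) := by
  obtain ⟨k, hk⟩ := blk_rest σ hij
  exact gd_stp hE (subset_univ _) (h i) (subset_univ _) (blk_disj σ hij) (h j) (hk ▸ h k)

theorem st_gd (hE : Env r univ f) {σ : β → Fin 3} (h : IsSt r f σ) (i : Fin 3) :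
    Gd r univ f (blk σ i) := by
  obtain ⟨j, hj⟩ : ∃ j : Fin 3, j ≠ i := exists_ne _
  exact stp_left hE (st_stp hE h hj.symm)

theorem gd_st (hE : Env r univ f) {A : Finset β} (hA : Gd r univ f A) :
    ∃ σ, IsSt r f σ ∧ blk σ 0 = A := by
  obtain ⟨C, hC, hd, hBC, hBD⟩ := gd_parts hE hA
  have h0 : blk (fun e => if e ∈ A then (0 : Fin 3) else if e ∈ C then 1 else 2) 0 = A := by
    ext e
    rw [mem_blk]
    by_cases he : e ∈ A
    · simp [he]
    · by_cases he' : e ∈ C
      · simp [he, he']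
      · simp [he, he']
  have h1 : blk (fun e => if e ∈ A then (0 : Fin 3) else if e ∈ C then 1 else 2) 1 = C := by
    ext e
    rw [mem_blk]
    by_cases he : e ∈ A
    · have := disjoint_left.1 hd he
      simp [he, this]
    · by_cases he' : e ∈ C
      · simp [he, he']
      · simp [he, he']
  have h2 : blk (fun e => if e ∈ A then (0 : Fin 3) else if e ∈ C then 1 else 2) 2 =
      univ \ (A ∪ C) := by
    ext e
    rw [mem_blk, mem_sdiff, mem_union]
    by_cases he : e ∈ A
    · simp [he]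
    · by_cases he' : e ∈ C
      · simp [he, he']
      · simp [he, he']
  refine ⟨_, ?_, h0⟩
  intro i
  fin_cases i
  · show Bs r f (blk _ 0)
    rw [h0]
    exact hA.2.1
  · show Bs r f (blk _ 1)
    rw [h1]
    exact hBC
  · show Bs r f (blk _ 2)
    rw [h2]
    exact hBD

/-- The theorem on a finite type. -/
theorem one_class (hE : Env r univ f) (hs : Strict r univ) (Q : Finset β → Prop)
    (hQ : ∀ A A', Stp r univ f A A' → Q A → Q A')
    (hloc : ∀ X : Finset β, (∀ G : Finset β, G.Nonempty → (G \ X).card + 1 ≤ 2 * r G) →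
      f < X.card → 2 * X.card ≤ 3 * f → ∀ A B, A ⊆ X → B ⊆ X → Gd r univ f A → Gd r univ f B →
      Q A → Q B) (A B : Finset β) (hA : Gd r univ f A) (hB : Gd r univ f B) (hQA : Q A) : Q B := by
  classical
  have hQi : ∀ σ, IsSt r f σ → ∀ i j, Q (blk σ i) → Q (blk σ j) := by
    intro σ hσ i j h
    by_cases hij : i = j
    · rw [← hij]
      exact h
    · exact hQ _ _ (st_stp hE hσ hij) h
  let c : (β → Fin 3) → ZMod 2 := fun σ => if Q (blk σ 0) then 1 else 0
  have hci : ∀ σ, IsSt r f σ → ∀ i, c σ = if Q (blk σ i) then 1 else 0 := by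
    intro σ hσ i
    exact if_congr ⟨hQi σ hσ 0 i, hQi σ hσ i 0⟩ rfl rfl
  obtain ⟨σ, hσ, rfl⟩ := gd_st hE hA
  obtain ⟨σ', hσ', rfl⟩ := gd_st hE hB
  have h1 := const_of_loc hE hs c (by
    intro i σ σ' h h' hb
    rw [hci σ h i, hci σ' h' i, hb]) (by
    intro X h1 h2 h3 i σ σ' h h' hb hb'
    rw [hci σ h i, hci σ' h' i]
    refine if_congr ⟨fun hq => ?_, fun hq => ?_⟩ rfl rfl
    · exact hloc X h1 h2 h3 _ _ hb hb' (st_gd hE h i) (st_gd hE h' i) hq
    · exact hloc X h1 h2 h3 _ _ hb' hb (st_gd hE h' i) (st_gd hE h i) hq) σ σ' hσ hσ'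
  by_contra hn
  have h2 : c σ = 1 := if_pos hQA
  have h3 : c σ' = 0 := if_neg hn
  rw [h2, h3] at h1
  exact one_ne_zero h1

end

section

variable {α : Type*} [DecidableEq α] {r : Finset α → ℕ} {E : Finset α} {f : ℕ}

/-- The local hypothesis. -/
def LOC (α : Type*) [DecidableEq α] : Prop :=
  ∀ (E : Finset α) (r : Finset α → ℕ) (f : ℕ) (Q : Finset α → Prop) (X A B : Finset α),
    Env r E f → Strict r E → (∀ A A', Stp r E f A A' → Q A → Q A') → X ⊆ E →
    (∀ G ⊆ E, G.Nonempty → (G \ X).card + 1 ≤ 2 * r G) → f < X.card → 2 * X.card ≤ 3 * f →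
    A ⊆ X → B ⊆ X → Gd r E f A → Gd r E f B → Q A → Q B

theorem sw_of_loc (h : LOC α) : SW α := by
  intro E r f Q A B hE hs hQ hA hB hQA
  let β := {x // x ∈ E}
  let v : β → α := Subtype.val
  have hv : Function.Injective v := Subtype.val_injective
  let r' : Finset β → ℕ := fun X => r (X.image v)
  have hru : (univ : Finset β).image v = E := by
    ext x
    rw [mem_image]
    constructor
    · rintro ⟨y, _, rfl⟩
      exact y.2
    · intro hx
      exact ⟨⟨x, hx⟩, mem_univ _, rfl⟩
  have hsub : ∀ X : Finset β, X.image v ⊆ E := by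
    intro X x hx
    obtain ⟨y, _, rfl⟩ := mem_image.1 hx
    exact y.2
  have hcard : ∀ X : Finset β, (X.image v).card = X.card := fun X => card_image_of_injective X hv
  have hE' : Env r' univ f := by
    refine ⟨rk_img hE.rk v, ?_, ?_, ?_⟩
    · rw [← hcard, hru]
      exact hE.card
    · show r ((univ : Finset β).image v) = f
      rw [hru]
      exact hE.rank
    · intro X _
      rw [← hcard]
      exact hE.three _ (hsub X)
  have hs' : Strict r' univ := by
    intro X _ hne hX
    rw [← hcard]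
    refine hs _ (hsub X) (hne.image v) ?_
    intro h
    apply hX
    apply image_injective hv
    rw [h, hru]
  have hbs : ∀ X : Finset β, Bs r' f X ↔ Bs r f (X.image v) := by
    intro X
    unfold Bs
    rw [hcard]
  have hsd : ∀ X : Finset β, (univ \ X).image v = E \ X.image v := by
    intro X
    rw [image_sdiff _ _ hv, hru]
  have hstp : ∀ X X' : Finset β, Stp r' univ f X X' → Stp r E f (X.image v) (X'.image v) := by
    rintro X X' ⟨_, _, h3, h4, C, _, h6, h7, h8, h9, h10⟩
    refine ⟨hsub X, hsub X', (hbs X).1 h3, (hbs X').1 h4, C.image v, hsub C,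
      (disjoint_image hv).2 h6, (disjoint_image hv).2 h7, (hbs C).1 h8, ?_, ?_⟩
    · rw [← image_union, ← hsd]
      exact (hbs _).1 h9
    · rw [← image_union, ← hsd]
      exact (hbs _).1 h10
  have hgd : ∀ X : Finset β, Gd r' univ f X ↔ Gd r E f (X.image v) := by
    intro X
    constructor
    · rintro ⟨_, h2, h3⟩
      refine ⟨hsub X, (hbs X).1 h2, ?_⟩
      intro Y hY
      have h4 : (univ.filter fun y : β => v y ∈ Y).image v = Y := by
        ext x
        rw [mem_image]
        constructor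
        · rintro ⟨y, hy, rfl⟩
          exact (mem_filter.1 hy).2
        · intro hx
          have h5 : x ∈ E := (mem_sdiff.1 (hY hx)).1
          exact ⟨⟨x, h5⟩, mem_filter.2 ⟨mem_univ _, hx⟩, rfl⟩
      have h5 := h3 (univ.filter fun y : β => v y ∈ Y) (by
        intro y hy
        rw [mem_filter] at hy
        rw [mem_sdiff]
        refine ⟨mem_univ _, fun h6 => ?_⟩
        exact (mem_sdiff.1 (hY hy.2)).2 (mem_image_of_mem v h6))
      rw [← h4, hcard]
      exact h5
    · rintro ⟨_, h2, h3⟩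
      refine ⟨subset_univ _, (hbs X).2 h2, ?_⟩
      intro Y hY
      rw [← hcard]
      refine h3 _ ?_
      rw [← hsd]
      exact image_subset_image hY
  have hpre : ∀ X ⊆ E, (univ.filter fun y : β => v y ∈ X).image v = X := by
    intro X hX
    ext x
    rw [mem_image]
    constructor
    · rintro ⟨y, hy, rfl⟩
      exact (mem_filter.1 hy).2
    · intro hx
      exact ⟨⟨x, hX hx⟩, mem_filter.2 ⟨mem_univ _, hx⟩, rfl⟩
  have hA' : Gd r' univ f (univ.filter fun y : β => v y ∈ A) := by
    rw [hgd, hpre A hA.1]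
    exact hA
  have hB' : Gd r' univ f (univ.filter fun y : β => v y ∈ B) := by
    rw [hgd, hpre B hB.1]
    exact hB
  have hfin := one_class hE' hs' (fun X => Q (X.image v))
    (fun X X' hX hq => hQ _ _ (hstp X X' hX) hq) (by
      intro X h1 h2 h3 A₁ B₁ hA₁ hB₁ hG hG' hq
      refine h E r f Q (X.image v) (A₁.image v) (B₁.image v) hE hs hQ (hsub X) ?_ ?_ ?_
        (image_subset_image hA₁) (image_subset_image hB₁) ((hgd _).1 hG) ((hgd _).1 hG') hq
      · intro G hG hGn
        have h4 := h1 (univ.filter fun y : β => v y ∈ G) (by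
          obtain ⟨x, hx⟩ := hGn
          exact ⟨⟨x, hG hx⟩, mem_filter.2 ⟨mem_univ _, hx⟩⟩)
        rw [← hcard, image_sdiff _ _ hv, hpre G hG] at h4
        have h5 : r' (univ.filter fun y : β => v y ∈ G) = r G := by
          show r ((univ.filter fun y : β => v y ∈ G).image v) = r G
          rw [hpre G hG]
        rwa [h5] at h4
      · rw [hcard]
        exact h2
      · rw [hcard]
        exact h3)
    (univ.filter fun y : β => v y ∈ A) (univ.filter fun y : β => v y ∈ B) hA' hB' (by
      show Q ((univ.filter fun y : β => v y ∈ A).image v)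
      rw [hpre A hA.1]
      exact hQA)
  have h2 : Q ((univ.filter fun y : β => v y ∈ B).image v) := hfin
  rwa [hpre B hB.1] at h2

end

end Pool.Agent.GM91
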