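import Pool.Agent.GM91.Time

/-!
If `c` is not constant on the states of a strict system then `SS c l t ≠ 0` for suitable level functions and types.

Take states `σ₀`, `σ₁` with `c σ₀ ≠ c σ₁` and as few moved elements as possible; `M` is the set of the moved elements.  Times as in
`exists_time`, levels of the slot `i` with respect to the block `i` of `σ₀`.  The elements of `M` may stay or go to the slot of
`σ₁`, the others may stay or go to `j e`.  `φ e` is the element whose level `e` has in the other slot.  `φ` maps `M` to `M` and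
decreases the time outside `M`.  For every non-empty `Z ⊆ M` on which `φ` is a permutation, moving `Z` gives a state, so `Z = M` by
minimality.  The set of elements moved by a valid map is such a set `Z` or empty.  So the valid maps are `σ₀` and `σ₁`.
-/

set_option autoImplicit false

namespace Pool.Agent.GM91

open Finset Pool.Agent.DT3 Pool.Agent.CF98

variable {β : Type*} [Fintype β] [DecidableEq β] {r : Finset β → ℕ} {f : ℕ}

private theorem third_facts : ∀ a b c : Fin 3, a ≠ b → a ≠ -(a + b) ∧ b ≠ -(a + b) ∧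
    (c ≠ -(a + b) → c ≠ a → c = b) := by decide

theorem exists_ss (hE : Env r univ f) (hs : Strict r univ) (c : (β → Fin 3) → ZMod 2)
    {σa σb : β → Fin 3} (ha : IsSt r f σa) (hb : IsSt r f σb) (hab : c σa ≠ c σb) :
    ∃ l t, (∀ i, Lev r (l i)) ∧ SS c l t ≠ 0 := by
  classical
  have hex : ∃ n, ∃ σ₀ σ₁ : β → Fin 3, IsSt r f σ₀ ∧ IsSt r f σ₁ ∧ c σ₀ ≠ c σ₁ ∧
      (univ.filter fun e => σ₀ e ≠ σ₁ e).card = n := ⟨_, σa, σb, ha, hb, hab, rfl⟩
  obtain ⟨σ₀, σ₁, h0, h1, hc, hn⟩ := Nat.find_spec hex
  have hmin : ∀ σ σ' : β → Fin 3, IsSt r f σ → IsSt r f σ' →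
      (univ.filter fun e => σ e ≠ σ' e).card < (univ.filter fun e => σ₀ e ≠ σ₁ e).card →
      c σ = c σ' := by
    intro σ σ' hσ hσ' hlt
    by_contra hne
    rw [hn] at hlt
    exact Nat.find_min hex hlt ⟨σ, σ', hσ, hσ', hne, rfl⟩
  clear hn hex
  set M := univ.filter fun e => σ₀ e ≠ σ₁ e with hM
  have hMn : M.Nonempty := by
    rw [nonempty_iff_ne_empty]
    intro h
    apply hc
    congr 1
    funext e
    by_contra he
    have : e ∈ M := mem_filter.2 ⟨mem_univ _, he⟩
    rw [h] at this
    exact notMem_empty e this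
  obtain ⟨tm, j, htm, htM, hj⟩ := exists_time hE hs σ₀ hMn
  have hr := hE.rk
  have hone : ∀ x : β, r {x} = 1 := by
    intro x
    have h2 := hE.three {x} (subset_univ _)
    have h3 := hr.le_card {x}
    rw [card_singleton] at h2 h3
    omega
  have hT : ∀ i, r (blk σ₀ i) = r univ := fun i => by rw [hE.rank, (h0 i).2]
  have hTc : ∀ i, r (blk σ₀ i) = (blk σ₀ i).card := fun i => by rw [(h0 i).2, (h0 i).1]
  have hTc1 : ∀ i, r (blk σ₁ i) = (blk σ₁ i).card := fun i => by rw [(h1 i).2, (h1 i).1]
  set l : Fin 3 → β → ℕ := fun i => lv r (blk σ₀ i) tm with hl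
  have hlev : ∀ i, Lev r (l i) := fun i => lv_lev hr (hT i) tm hone
  set jj : β → Fin 3 := fun e => if e ∈ M then σ₁ e else j e with hjj
  have hjne : ∀ e, σ₀ e ≠ jj e := by
    intro e
    by_cases he : e ∈ M
    · have h2 : jj e = σ₁ e := if_pos he
      rw [h2]
      exact (mem_filter.1 he).2
    · have h2 : jj e = j e := if_neg he
      rw [h2]
      exact (hj e he).1.symm
  set t : β → Fin 3 := fun e => -(σ₀ e + jj e) with ht
  have hself : ∀ e, l (σ₀ e) e = tm e := fun e =>
    lv_self hr (hT _) (hTc _) (hone e) (mem_blk.2 rfl)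
  have hφ : ∀ e, ∃ y, σ₀ y = jj e ∧ tm y = l (jj e) e := by
    intro e
    obtain ⟨y, hy, hy'⟩ := lv_elem hr (hT (jj e)) tm (hone e)
    exact ⟨y, mem_blk.1 hy, hy'⟩
  choose φ hφ1 hφ2 using hφ
  have hφ3 : ∀ e, e ∉ M → tm (φ e) < tm e := by
    intro e he
    rw [hφ2]
    have h2 : jj e = j e := if_neg he
    rw [h2]
    exact lv_lt hr (hT _) (hj e he).2
  have hφ4 : ∀ e, e ∈ M → φ e ∈ M := by
    intro e he
    by_contra hn
    have h2 : jj e = σ₁ e := if_pos he
    have h3 : late (blk σ₀ (jj e)) tm (tm (φ e)) ⊆ blk σ₁ (jj e) := by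
      intro y hy
      rw [late, mem_filter, mem_blk] at hy
      rw [mem_blk, ← hy.1]
      by_contra hy'
      have hyM : y ∈ M := mem_filter.2 ⟨mem_univ _, fun h => hy' h.symm⟩
      have := htM y hyM (φ e) hn
      omega
    have h4 : e ∉ late (blk σ₀ (jj e)) tm (tm (φ e)) := by
      rw [late, mem_filter, mem_blk]
      exact fun h => hjne e h.1
    have h5 := lv_le hr (hT (jj e)) tm e
    have h6 : lv r (blk σ₀ (jj e)) tm e = tm (φ e) := (hφ2 e).symm
    rw [h6] at h5
    have h7 := ind_sub hr (hTc1 (jj e)) h3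
    have h8 := ind_sub hr (hTc1 (jj e)) (insert_subset (mem_blk.2 h2.symm) h3)
    rw [card_insert_of_notMem h4] at h8
    omega
  -- moving `Z`
  have hval : ∀ Z : Finset β, Z ⊆ M → (∀ e ∈ Z, φ e ∈ Z) → Set.InjOn φ (Z : Set β) →
      Val l t (fun e => if e ∈ Z then σ₁ e else σ₀ e) := by
    intro Z hZ hcl hinj
    have hZ1 : ∀ e ∈ Z, (if e ∈ Z then σ₁ e else σ₀ e) = jj e := by
      intro e he
      rw [if_pos he]
      exact (if_pos (hZ he)).symm
    have hZ0 : ∀ e, e ∉ Z → (if e ∈ Z then σ₁ e else σ₀ e) = σ₀ e := fun e he => if_neg he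
    refine ⟨fun e => ?_, fun e e' h2 h3 => ?_⟩
    · show (if e ∈ Z then σ₁ e else σ₀ e) ≠ t e
      by_cases he : e ∈ Z
      · rw [hZ1 e he]
        exact (third_facts _ _ 0 (hjne e)).2.1
      · rw [hZ0 e he]
        exact (third_facts _ _ 0 (hjne e)).1
    · have h2' : (if e ∈ Z then σ₁ e else σ₀ e) = (if e' ∈ Z then σ₁ e' else σ₀ e') := h2
      have h3' : l (if e ∈ Z then σ₁ e else σ₀ e) e = l (if e' ∈ Z then σ₁ e' else σ₀ e') e' := by
        rw [← h2']
        exact h3
      by_cases he : e ∈ Z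
      · by_cases he' : e' ∈ Z
        · rw [hZ1 e he, hZ1 e' he', ← hφ2, ← hφ2] at h3'
          exact hinj he he' (htm h3')
        · exfalso
          rw [hZ1 e he, hZ0 e' he', ← hφ2, hself] at h3'
          exact he' (htm h3' ▸ hcl e he)
      · by_cases he' : e' ∈ Z
        · exfalso
          rw [hZ0 e he, hZ1 e' he', ← hφ2, hself] at h3'
          exact he (htm h3' ▸ hcl e' he')
        · rw [hZ0 e he, hZ0 e' he', hself, hself] at h3'
          exact htm h3'
  have hZM : ∀ Z : Finset β, Z ⊆ M → Z.Nonempty → (∀ e ∈ Z, φ e ∈ Z) →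
      Set.InjOn φ (Z : Set β) → Z = M := by
    intro Z hZ hZn hcl hinj
    by_contra hne
    have hst : IsSt r f (fun e => if e ∈ Z then σ₁ e else σ₀ e) :=
      val_st hE hlev (hval Z hZ hcl hinj)
    have hlt : Z.card < M.card := card_lt_card (hZ.ssubset_of_ne hne)
    have h2 : c σ₀ = c (fun e => if e ∈ Z then σ₁ e else σ₀ e) := by
      apply hmin _ _ h0 hst
      refine lt_of_le_of_lt (card_le_card ?_) hlt
      intro e he
      rw [mem_filter] at he
      by_contra hn
      exact he.2 (if_neg hn).symm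
    have h3 : c (fun e => if e ∈ Z then σ₁ e else σ₀ e) = c σ₁ := by
      apply hmin _ _ hst h1
      apply card_lt_card
      have h4 : (univ.filter fun e => (if e ∈ Z then σ₁ e else σ₀ e) ≠ σ₁ e) ⊆ M := by
        intro e he
        rw [mem_filter] at he
        rw [hM, mem_filter]
        refine ⟨mem_univ _, ?_⟩
        by_cases heZ : e ∈ Z
        · exact absurd (if_pos heZ) he.2
        · have := he.2
          rwa [if_neg heZ] at this
      refine h4.ssubset_of_ne ?_
      intro h5
      obtain ⟨z, hz⟩ := hZn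
      have h6 : z ∈ (univ.filter fun e => (if e ∈ Z then σ₁ e else σ₀ e) ≠ σ₁ e) := h5 ▸ hZ hz
      rw [mem_filter] at h6
      exact h6.2 (if_pos hz)
    exact hc (h2.trans h3)
  -- `φ` is a permutation of `M`
  obtain ⟨Z, hZmem, hZmin⟩ := exists_min_image
    (M.powerset.filter fun Z => Z.Nonempty ∧ ∀ e ∈ Z, φ e ∈ Z) card
    ⟨M, mem_filter.2 ⟨mem_powerset_self M, hMn, hφ4⟩⟩
  rw [mem_filter, mem_powerset] at hZmem
  obtain ⟨hZ, hZn, hZc⟩ := hZmem
  have hZinj : Set.InjOn φ (Z : Set β) := by
    apply card_image_iff.1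
    apply le_antisymm card_image_le
    apply hZmin
    rw [mem_filter, mem_powerset]
    have h2 : Z.image φ ⊆ Z := by
      intro y hy
      obtain ⟨e, he, rfl⟩ := mem_image.1 hy
      exact hZc e he
    exact ⟨h2.trans hZ, hZn.image φ, fun e he => mem_image_of_mem φ (h2 he)⟩
  have hZeq := hZM Z hZ hZn hZc hZinj
  subst hZeq
  have hv0 : Val l t σ₀ := by
    have h2 := hval ∅ (empty_subset _) (fun e he => absurd he (notMem_empty e)) (by simp)
    have h3 : (fun e => if e ∈ (∅ : Finset β) then σ₁ e else σ₀ e) = σ₀ := by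
      funext e
      exact if_neg (notMem_empty e)
    rwa [h3] at h2
  have hv1 : Val l t σ₁ := by
    have h2 := hval M (Subset.refl _) hφ4 hZinj
    have h3 : (fun e => if e ∈ M then σ₁ e else σ₀ e) = σ₁ := by
      funext e
      by_cases he : e ∈ M
      · exact if_pos he
      · rw [if_neg he]
        by_contra hne
        exact he (mem_filter.2 ⟨mem_univ _, hne⟩)
    rwa [h3] at h2
  have huniq : ∀ σ, Val l t σ → σ = σ₀ ∨ σ = σ₁ := by
    intro σ hσ
    set Z := univ.filter fun e => σ e ≠ σ₀ e with hZd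
    have hZj : ∀ e ∈ Z, σ e = jj e := by
      intro e he
      exact (third_facts (σ₀ e) (jj e) (σ e) (hjne e)).2.2 (hσ.1 e) (mem_filter.1 he).2
    have hZN : ∀ e, e ∉ Z → σ e = σ₀ e := by
      intro e he
      by_contra hn
      exact he (mem_filter.2 ⟨mem_univ _, hn⟩)
    have hcl : ∀ e ∈ Z, φ e ∈ Z := by
      intro e he
      by_contra hn
      have h2 : σ (φ e) = jj e := by rw [hZN _ hn, hφ1]
      have h3 : l (σ e) e = l (σ e) (φ e) := by
        rw [hZj e he, ← hφ2, ← hφ1 e, hself]
      have h4 := hσ.2 e (φ e) (by rw [h2, hZj e he]) h3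
      exact hn (h4 ▸ he)
    have hinj : Set.InjOn φ (Z : Set β) := by
      intro e he e' he' hee
      have h2 : jj e = jj e' := by rw [← hφ1, hee, hφ1]
      have he1 := hZj e he
      have he1' := hZj e' he'
      apply hσ.2 e e' (by rw [he1, he1', h2])
      rw [he1, ← hφ2, hee, hφ2, h2]
    have hZimg : Z.image φ = Z := by
      apply eq_of_subset_of_card_le
      · intro y hy
        obtain ⟨e, he, rfl⟩ := mem_image.1 hy
        exact hcl e he
      · rw [card_image_of_injOn hinj]
    have hMZ : (M ∩ Z).image φ = M ∩ Z := by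
      apply eq_of_subset_of_card_le
      · intro y hy
        obtain ⟨e, he, rfl⟩ := mem_image.1 hy
        rw [mem_inter] at he ⊢
        exact ⟨hφ4 e he.1, hcl e he.2⟩
      · rw [card_image_of_injOn]
        intro a ha b hb hab
        exact hinj (mem_inter.1 (mem_coe.1 ha)).2 (mem_inter.1 (mem_coe.1 hb)).2 hab
    have hsub : Z ⊆ M := by
      by_contra hns
      have h2 : (Z \ M).Nonempty := by
        rw [nonempty_iff_ne_empty]
        intro h
        exact hns (sdiff_eq_empty_iff_subset.1 h)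
      obtain ⟨e, he, hemin⟩ := exists_min_image (Z \ M) tm h2
      rw [mem_sdiff] at he
      have h3 := hφ3 e he.2
      have h4 := hcl e he.1
      have h5 : φ e ∈ M := by
        by_contra hn
        have := hemin (φ e) (mem_sdiff.2 ⟨h4, hn⟩)
        omega
      have h6 : φ e ∈ (M ∩ Z).image φ := hMZ.symm ▸ mem_inter.2 ⟨h5, h4⟩
      obtain ⟨e', he', hee⟩ := mem_image.1 h6
      rw [mem_inter] at he'
      have h7 := hinj he'.2 he.1 hee
      exact he.2 (h7 ▸ he'.1)
    by_cases hZe : Z.Nonempty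
    · right
      have h2 := hZM Z hsub hZe hcl hinj
      funext e
      by_cases he : e ∈ Z
      · rw [hZj e he]
        exact if_pos (hsub he)
      · rw [hZN e he]
        by_contra hn
        rw [h2] at he
        exact he (mem_filter.2 ⟨mem_univ _, hn⟩)
    · left
      rw [not_nonempty_iff_eq_empty] at hZe
      funext e
      exact hZN e (by rw [hZe]; exact notMem_empty e)
  refine ⟨l, t, hlev, ?_⟩
  have hsum : SS c l t = c σ₀ + c σ₁ := by
    unfold SS
    rw [← sum_filter]
    have h2 : (univ.filter fun σ => Val l t σ) = {σ₀, σ₁} := by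
      ext σ
      rw [mem_filter, mem_insert, mem_singleton]
      constructor
      · rintro ⟨_, h⟩
        exact huniq σ h
      · rintro (rfl | rfl)
        · exact ⟨mem_univ _, hv0⟩
        · exact ⟨mem_univ _, hv1⟩
    rw [h2, sum_pair]
    intro h
    exact hc (by rw [h])
  rw [hsum]
  have : ∀ a b : ZMod 2, a ≠ b → a + b ≠ 0 := by decide
  exact this _ _ hc

end Pool.Agent.GM91
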