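import Pool.Agent.CF98.Good

/-!
Sums over transversal partitions (MP_e6151a_ag, Q1; game of notes 2716, 2727).

`β` is the finite ground set, `|β| = 3 f`, `r` a rank function of rank `f`.  A level function for `r` is a function `l : β → ℕ` such
that every set `X` meets at most `r X` levels.  Given three level functions `l 0`, `l 1`, `l 2` and a type `t e` (the forbidden slot)
for every `e`, a map `σ : β → Fin 3` is valid if `σ e ≠ t e` and `l i` is injective on the block `i` of `σ`.  The blocks of a valid map
are bases.  `SS c l t` is the sum of `c σ` over the valid maps, with values in `ZMod 2`.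

* `type_rel`: the sum over the three types of an element is zero (every map is counted twice).
* `sw_val`: if all levels have even degree in the set `D`, then moving all elements of `D` to their other slot maps valid maps to valid maps.
* `sum_switch`: so the sum is zero if `D` is non-empty and the switch preserves `c`.
-/

set_option autoImplicit false

namespace Pool.Agent.GM91

open Finset Pool.Agent.DT3 Pool.Agent.CF98

variable {β : Type*} [Fintype β] [DecidableEq β] {r : Finset β → ℕ} {f : ℕ}

/-- A level function: every set meets at most `r X` levels. -/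
def Lev (r : Finset β → ℕ) (l : β → ℕ) : Prop := ∀ X : Finset β, (X.image l).card ≤ r X

/-- The block of the slot `i`. -/
def blk (σ : β → Fin 3) (i : Fin 3) : Finset β := univ.filter fun e => σ e = i

/-- All three blocks are bases. -/
def IsSt (r : Finset β → ℕ) (f : ℕ) (σ : β → Fin 3) : Prop := ∀ i, Bs r f (blk σ i)

/-- Valid maps; `t e` is the forbidden slot of `e`. -/
def Val (l : Fin 3 → β → ℕ) (t σ : β → Fin 3) : Prop :=
  (∀ e, σ e ≠ t e) ∧ ∀ e e', σ e = σ e' → l (σ e) e = l (σ e) e' → e = e'

open Classical in
/-- The sum of `c` over the valid maps. -/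
noncomputable def SS (c : (β → Fin 3) → ZMod 2) (l : Fin 3 → β → ℕ) (t : β → Fin 3) : ZMod 2 :=
  ∑ σ : β → Fin 3, if Val l t σ then c σ else 0

/-- Move the elements of `D` to their other slot. -/
def sw (t : β → Fin 3) (D : Finset β) (σ : β → Fin 3) : β → Fin 3 :=
  fun e => if e ∈ D then -(t e + σ e) else σ e

omit [DecidableEq β] in
theorem mem_blk {σ : β → Fin 3} {i : Fin 3} {e : β} : e ∈ blk σ i ↔ σ e = i := by
  simp [blk]

omit [DecidableEq β] in
theorem blk_card (σ : β → Fin 3) :
    (blk σ 0).card + (blk σ 1).card + (blk σ 2).card = (univ : Finset β).card := by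
  have h := Finset.card_eq_sum_card_fiberwise (f := σ) (s := univ) (t := univ)
    (fun _ _ => mem_univ _)
  rw [Fin.sum_univ_three] at h
  exact h.symm

theorem val_st (hE : Env r univ f) {l : Fin 3 → β → ℕ} (hl : ∀ i, Lev r (l i))
    {t σ : β → Fin 3} (h : Val l t σ) : IsSt r f σ := by
  have h1 : ∀ i, (blk σ i).card ≤ r (blk σ i) := by
    intro i
    have h2 : ((blk σ i).image (l i)).card = (blk σ i).card := by
      apply card_image_of_injOn
      intro a ha b hb hab
      rw [mem_coe, mem_blk] at ha hb
      exact h.2 a b (ha.trans hb.symm) (by rw [ha]; exact hab)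
    rw [← h2]
    exact hl i _
  have h2 : ∀ i, r (blk σ i) ≤ f := fun i => hE.rank ▸ hE.rk.mono _ _ (subset_univ _)
  have h3 := blk_card σ
  rw [hE.card] at h3
  have a0 := h1 0
  have a1 := h1 1
  have a2 := h1 2
  have b0 := h2 0
  have b1 := h2 1
  have b2 := h2 2
  intro i
  fin_cases i
  · exact ⟨by show (blk σ 0).card = f; omega, by show r (blk σ 0) = f; omega⟩
  · exact ⟨by show (blk σ 1).card = f; omega, by show r (blk σ 1) = f; omega⟩
  · exact ⟨by show (blk σ 2).card = f; omega, by show r (blk σ 2) = f; omega⟩

/-- The type relation. -/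
theorem type_rel (c : (β → Fin 3) → ZMod 2) (l : Fin 3 → β → ℕ) (t : β → Fin 3) (e : β) :
    SS c l (Function.update t e 0) + SS c l (Function.update t e 1) +
      SS c l (Function.update t e 2) = 0 := by
  classical
  unfold SS
  rw [← sum_add_distrib, ← sum_add_distrib]
  apply sum_eq_zero
  intro σ _
  have key : ∀ k, Val l (Function.update t e k) σ ↔
      (σ e ≠ k ∧ ((∀ e', e' ≠ e → σ e' ≠ t e') ∧
        ∀ e₁ e', σ e₁ = σ e' → l (σ e₁) e₁ = l (σ e₁) e' → e₁ = e')) := by
    intro k
    constructor
    · rintro ⟨h1, h2⟩
      refine ⟨?_, ?_, h2⟩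
      · have := h1 e
        rwa [Function.update_self] at this
      · intro e' he'
        have := h1 e'
        rwa [Function.update_of_ne he'] at this
    · rintro ⟨h1, h2, h3⟩
      refine ⟨?_, h3⟩
      intro e'
      by_cases he' : e' = e
      · subst he'
        rwa [Function.update_self]
      · rw [Function.update_of_ne he']
        exact h2 e' he'
  by_cases hR : ((∀ e', e' ≠ e → σ e' ≠ t e') ∧
        ∀ e₁ e', σ e₁ = σ e' → l (σ e₁) e₁ = l (σ e₁) e' → e₁ = e')
  · have k0 : Val l (Function.update t e 0) σ ↔ σ e ≠ 0 := by rw [key]; exact and_iff_left hR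
    have k1 : Val l (Function.update t e 1) σ ↔ σ e ≠ 1 := by rw [key]; exact and_iff_left hR
    have k2 : Val l (Function.update t e 2) σ ↔ σ e ≠ 2 := by rw [key]; exact and_iff_left hR
    rw [if_congr k0 rfl rfl, if_congr k1 rfl rfl, if_congr k2 rfl rfl]
    generalize σ e = s
    generalize c σ = x
    revert s x
    decide
  · have k0 : ¬ Val l (Function.update t e 0) σ := fun h => hR ((key 0).1 h).2
    have k1 : ¬ Val l (Function.update t e 1) σ := fun h => hR ((key 1).1 h).2
    have k2 : ¬ Val l (Function.update t e 2) σ := fun h => hR ((key 2).1 h).2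
    rw [if_neg k0, if_neg k1, if_neg k2]
    rfl

omit [Fintype β] in
theorem sw_sw (t : β → Fin 3) (D : Finset β) (σ : β → Fin 3) : sw t D (sw t D σ) = σ := by
  funext e
  unfold sw
  by_cases he : e ∈ D
  · rw [if_pos he, if_pos he]
    generalize σ e = a
    generalize t e = b
    revert a b
    decide
  · rw [if_neg he, if_neg he]

private theorem third_ne : ∀ a b : Fin 3, b ≠ a → -(a + b) ≠ a ∧ -(a + b) ≠ b := by decide

private theorem third_or : ∀ a b c : Fin 3, b ≠ a → c ≠ a → c = b ∨ c = -(a + b) := by decide

omit [Fintype β] in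
/-- If all levels have even degree in `D`, the switch preserves valid maps. -/
theorem sw_val {l : Fin 3 → β → ℕ} {t : β → Fin 3} {D : Finset β}
    (hev : ∀ v : Fin 3 × ℕ, Even ((D.filter fun e => v.1 ≠ t e ∧ l v.1 e = v.2).card))
    {σ : β → Fin 3} (h : Val l t σ) : Val l t (sw t D σ) := by
  classical
  have hD : ∀ e ∈ D, sw t D σ e = -(t e + σ e) := fun e he => if_pos he
  have hN : ∀ e, e ∉ D → sw t D σ e = σ e := fun e he => if_neg he
  let p : β → Fin 3 × ℕ := fun e => (σ e, l (σ e) e)
  let q : β → Fin 3 × ℕ := fun e => (sw t D σ e, l (sw t D σ e) e)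
  have hpi : ∀ e e', p e = p e' → e = e' := by
    intro e e' hp
    have h1 : σ e = σ e' := congrArg Prod.fst hp
    have h2 : l (σ e) e = l (σ e') e' := congrArg Prod.snd hp
    exact h.2 e e' h1 (by rw [h2, h1])
  have hsub : D.image p ⊆ D.image q := by
    intro v hv
    obtain ⟨e, he, rfl⟩ := mem_image.1 hv
    by_contra hq
    have h1 : (D.filter fun e' => (p e).1 ≠ t e' ∧ l (p e).1 e' = (p e).2) = {e} := by
      ext e'
      rw [mem_filter, mem_singleton]
      constructor
      · rintro ⟨h1, h2, h3⟩
        rcases third_or (t e') (σ e') (p e).1 (h.1 e') h2 with h4 | h4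
        · apply hpi
          apply Prod.ext
          · exact h4.symm
          · show l (σ e') e' = (p e).2
            rw [← h4]
            exact h3
        · exfalso
          apply hq
          rw [mem_image]
          refine ⟨e', h1, ?_⟩
          have h5 : sw t D σ e' = (p e).1 := by rw [hD e' h1, h4]
          apply Prod.ext
          · exact h5
          · show l (sw t D σ e') e' = (p e).2
            rw [h5]
            exact h3
      · rintro rfl
        exact ⟨he, h.1 e', rfl⟩
    have h2 := hev (p e)
    rw [h1, card_singleton] at h2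
    exact absurd h2 (by decide)
  have hcp : (D.image p).card = D.card := card_image_of_injective D (fun a b => hpi a b)
  have hcq : (D.image q).card ≤ D.card := card_image_le
  have heq : D.image p = D.image q := eq_of_subset_of_card_le hsub (by omega)
  have hqi : Set.InjOn q (D : Set β) := by
    apply card_image_iff.1
    rw [← heq, hcp]
  refine ⟨fun e => ?_, fun e e' h1 h2 => ?_⟩
  · by_cases he : e ∈ D
    · rw [hD e he]
      exact (third_ne (t e) (σ e) (h.1 e)).1
    · rw [hN e he]
      exact h.1 e
  · have hqq : q e = q e' := by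
      apply Prod.ext
      · exact h1
      · show l (sw t D σ e) e = l (sw t D σ e') e'
        rw [h2, h1]
    by_cases he : e ∈ D
    · by_cases he' : e' ∈ D
      · exact hqi he he' hqq
      · exfalso
        have h3 : q e ∈ D.image p := heq ▸ mem_image_of_mem q he
        obtain ⟨e'', h4, h5⟩ := mem_image.1 h3
        have h6 : q e' = p e' := by
          show (sw t D σ e', l (sw t D σ e') e') = (σ e', l (σ e') e')
          rw [hN e' he']
        have h7 : e'' = e' := hpi _ _ (by rw [h5, hqq, h6])
        exact he' (h7 ▸ h4)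
    · by_cases he' : e' ∈ D
      · exfalso
        have h3 : q e' ∈ D.image p := heq ▸ mem_image_of_mem q he'
        obtain ⟨e'', h4, h5⟩ := mem_image.1 h3
        have h6 : q e = p e := by
          show (sw t D σ e, l (sw t D σ e) e) = (σ e, l (σ e) e)
          rw [hN e he]
        have h7 : e'' = e := hpi _ _ (by rw [h5, ← hqq, h6])
        exact he (h7 ▸ h4)
      · apply hpi
        have h6 : q e = p e := by
          show (sw t D σ e, l (sw t D σ e) e) = (σ e, l (σ e) e)
          rw [hN e he]
        have h7 : q e' = p e' := by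
          show (sw t D σ e', l (sw t D σ e') e') = (σ e', l (σ e') e')
          rw [hN e' he']
        rw [← h6, ← h7, hqq]

/-- The sum vanishes if a switch preserves the summands. -/
theorem sum_switch (c : (β → Fin 3) → ZMod 2) {l : Fin 3 → β → ℕ} {t : β → Fin 3} {D : Finset β}
    (hne : D.Nonempty)
    (hev : ∀ v : Fin 3 × ℕ, Even ((D.filter fun e => v.1 ≠ t e ∧ l v.1 e = v.2).card))
    (hc : ∀ σ, Val l t σ → Val l t (sw t D σ) → c (sw t D σ) = c σ) : SS c l t = 0 := by
  classical
  unfold SS
  rw [← sum_filter]
  refine sum_involution (fun σ _ => sw t D σ) ?_ ?_ ?_ ?_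
  · intro σ hσ
    rw [mem_filter] at hσ
    rw [hc σ hσ.2 (sw_val hev hσ.2)]
    generalize c σ = x
    revert x
    decide
  · intro σ hσ _ heq
    rw [mem_filter] at hσ
    obtain ⟨e, he⟩ := hne
    have h1 := congrFun heq e
    have h2 : sw t D σ e = -(t e + σ e) := if_pos he
    rw [h2] at h1
    exact (third_ne (t e) (σ e) (hσ.2.1 e)).2 h1
  · intro σ hσ
    rw [mem_filter] at hσ ⊢
    exact ⟨mem_univ _, sw_val hev hσ.2⟩
  · intro σ _
    exact sw_sw t D σ

end Pool.Agent.GM91
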