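import Pool.Agent.GM91.Level

/-!
The times.  `σ₀` is a state of a strict system, `M` a non-empty set.  There are different times for all elements, those of `M` first,
such that every `e ∉ M` has a slot `j e ≠ σ₀ e` in which `e` is not in the closure of the elements of the block `j e` which are later
than `e`.

If `R` is the set of the elements already reached and `U` the rest, then `r U ≤ |U ∩ T_j|` for all `j` is impossible (`|U| < 3 r U`);
so for some `j` some `e ∈ U` is not in the closure of `U ∩ T_j`.
-/

set_option autoImplicit false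

namespace Pool.Agent.GM91

open Finset Pool.Agent.DT3 Pool.Agent.CF98

variable {β : Type*} [Fintype β] [DecidableEq β] {r : Finset β → ℕ} {f : ℕ}


/-- One step. -/
theorem time_step (hE : Env r univ f) (hs : Strict r univ) (σ₀ : β → Fin 3)
    {R : Finset β} (hR : R.Nonempty) (hRu : R ≠ univ) :
    ∃ e, e ∉ R ∧ ∃ j, j ≠ σ₀ e ∧ r (insert e (blk σ₀ j \ R)) ≠ r (blk σ₀ j \ R) := by
  by_contra hcon
  push Not at hcon
  set U := univ \ R with hU
  have hUn : U.Nonempty := by
    rw [nonempty_iff_ne_empty]
    intro h
    rw [hU, sdiff_eq_empty_iff_subset] at h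
    exact hRu (Subset.antisymm (subset_univ _) h)
  have hUu : U ≠ univ := by
    intro h
    obtain ⟨x, hx⟩ := hR
    have h1 : x ∈ U := h ▸ mem_univ x
    rw [hU, mem_sdiff] at h1
    exact h1.2 hx
  have hst := hs U (subset_univ _) hUn hUu
  have hle : ∀ j, r U ≤ (blk σ₀ j \ R).card := by
    intro j
    have h1 : r (blk σ₀ j \ R ∪ U) = r (blk σ₀ j \ R) := by
      apply rk_union_eq hE.rk
      intro e he
      rw [hU, mem_sdiff] at he
      by_cases hj : j = σ₀ e
      · rw [insert_eq_of_mem]
        rw [mem_sdiff, mem_blk]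
        exact ⟨hj.symm, he.2⟩
      · exact hcon e he.2 j hj
    have h2 := hE.rk.mono U (blk σ₀ j \ R ∪ U) subset_union_right
    have h3 := hE.rk.le_card (blk σ₀ j \ R)
    omega
  have hc : (blk σ₀ 0 \ R).card + (blk σ₀ 1 \ R).card + (blk σ₀ 2 \ R).card = U.card := by
    have h := Finset.card_eq_sum_card_fiberwise (f := σ₀) (s := U) (t := univ)
      (fun _ _ => mem_univ _)
    rw [Fin.sum_univ_three] at h
    rw [h]
    have h4 : ∀ i, (blk σ₀ i \ R) = (U.filter fun e => σ₀ e = i) := by
      intro i
      ext e
      rw [mem_sdiff, mem_blk, mem_filter, hU, mem_sdiff]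
      simp only [mem_univ, true_and]
      tauto
    rw [h4, h4, h4]
  have a0 := hle 0
  have a1 := hle 1
  have a2 := hle 2
  omega

private theorem time_aux (hE : Env r univ f) (hs : Strict r univ) (σ₀ : β → Fin 3) (n : ℕ) : ∀ R : Finset β, R.Nonempty → (univ \ R).card = n →
    ∃ (tm : β → ℕ) (j : β → Fin 3), (∀ x, x ∉ R → ∀ y, y ∉ R → tm x = tm y → x = y) ∧
      ∀ e, e ∉ R → j e ≠ σ₀ e ∧
        r (insert e ((blk σ₀ (j e)).filter fun y => y ∉ R ∧ tm e ≤ tm y)) ≠
          r ((blk σ₀ (j e)).filter fun y => y ∉ R ∧ tm e ≤ tm y) := by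
  induction n with
  | zero =>
    intro R _ hc
    rw [card_eq_zero, sdiff_eq_empty_iff_subset] at hc
    exact ⟨fun _ => 0, fun _ => 0, fun x hx => absurd (hc (mem_univ x)) hx,
      fun e he => absurd (hc (mem_univ e)) he⟩
  | succ n ih =>
    intro R hR hc
    have hRu : R ≠ univ := by
      rintro rfl
      rw [sdiff_self] at hc
      exact absurd hc (by simp)
    obtain ⟨e₀, he₀, j₀, hj₀, hr₀⟩ := time_step hE hs σ₀ hR hRu
    have hc' : (univ \ insert e₀ R).card = n := by
      have h1 : univ \ insert e₀ R = (univ \ R).erase e₀ := by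
        ext x
        rw [mem_sdiff, mem_insert, mem_erase, mem_sdiff]
        tauto
      rw [h1, card_erase_of_mem (mem_sdiff.2 ⟨mem_univ _, he₀⟩), hc]
      rfl
    obtain ⟨tm, j, h1, h2⟩ := ih (insert e₀ R) (insert_nonempty _ _) hc'
    refine ⟨fun x => if x = e₀ then 0 else tm x + 1, fun x => if x = e₀ then j₀ else j x, ?_, ?_⟩
    · intro x hx y hy hxy
      by_cases hx0 : x = e₀
      · by_cases hy0 : y = e₀
        · rw [hx0, hy0]
        · simp only [hx0, hy0, if_true, if_false] at hxy
          omega
      · by_cases hy0 : y = e₀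
        · simp only [hx0, hy0, if_true, if_false] at hxy
          omega
        · simp only [hx0, hy0, if_false] at hxy
          exact h1 x (by rw [mem_insert]; tauto) y (by rw [mem_insert]; tauto) (by omega)
    · intro e he
      by_cases he0 : e = e₀
      · subst he0
        simp only [if_true]
        refine ⟨hj₀, ?_⟩
        have h3 : ((blk σ₀ j₀).filter fun y => y ∉ R ∧ 0 ≤ if y = e then 0 else tm y + 1) =
            blk σ₀ j₀ \ R := by
          ext y
          rw [mem_filter, mem_sdiff]
          simp
        rw [h3]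
        exact hr₀
      · simp only [if_neg he0]
        have h3 : e ∉ insert e₀ R := by rw [mem_insert]; tauto
        obtain ⟨h4, h5⟩ := h2 e h3
        refine ⟨h4, ?_⟩
        have h6 : ((blk σ₀ (j e)).filter fun y => y ∉ R ∧
            tm e + 1 ≤ if y = e₀ then 0 else tm y + 1) =
            ((blk σ₀ (j e)).filter fun y => y ∉ insert e₀ R ∧ tm e ≤ tm y) := by
          ext y
          rw [mem_filter, mem_filter, mem_insert]
          by_cases hy : y = e₀
          · simp [hy]
          · simp [hy]
        rw [h6]
        exact h5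

/-- The times. -/
theorem exists_time (hE : Env r univ f) (hs : Strict r univ) (σ₀ : β → Fin 3)
    {M : Finset β} (hM : M.Nonempty) :
    ∃ (tm : β → ℕ) (j : β → Fin 3), Function.Injective tm ∧ (∀ x ∈ M, ∀ y, y ∉ M → tm x < tm y) ∧
      ∀ e, e ∉ M → j e ≠ σ₀ e ∧
        r (insert e (late (blk σ₀ (j e)) tm (tm e))) ≠ r (late (blk σ₀ (j e)) tm (tm e)) := by
  obtain ⟨tm, j, h1, h2⟩ := time_aux hE hs σ₀ _ M hM rfl
  let g : β → ℕ := fun x => (Fintype.equivFin β x : ℕ)
  have hg : ∀ x, g x < Fintype.card β := fun x => (Fintype.equivFin β x).2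
  have hgi : ∀ x y, g x = g y → x = y := by
    intro x y hxy
    exact (Fintype.equivFin β).injective (Fin.ext hxy)
  refine ⟨fun x => if x ∈ M then g x else tm x + Fintype.card β, j, ?_, ?_, ?_⟩
  · intro x y hxy
    by_cases hx : x ∈ M
    · by_cases hy : y ∈ M
      · simp only [if_pos hx, if_pos hy] at hxy
        exact hgi x y hxy
      · simp only [if_pos hx, if_neg hy] at hxy
        have := hg x
        omega
    · by_cases hy : y ∈ M
      · simp only [if_neg hx, if_pos hy] at hxy
        have := hg y
        omega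
      · simp only [if_neg hx, if_neg hy] at hxy
        exact h1 x hx y hy (by omega)
  · intro x hx y hy
    simp only [if_pos hx, if_neg hy]
    have := hg x
    omega
  · intro e he
    obtain ⟨h3, h4⟩ := h2 e he
    refine ⟨h3, ?_⟩
    have h5 : late (blk σ₀ (j e)) (fun x => if x ∈ M then g x else tm x + Fintype.card β)
        ((fun x => if x ∈ M then g x else tm x + Fintype.card β) e) =
        ((blk σ₀ (j e)).filter fun y => y ∉ M ∧ tm e ≤ tm y) := by
      ext y
      rw [late, mem_filter, mem_filter]
      simp only [if_neg he]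
      by_cases hy : y ∈ M
      · have h6 := hg y
        rw [if_pos hy]
        constructor
        · rintro ⟨_, h7⟩
          omega
        · rintro ⟨_, h7, _⟩
          exact absurd hy h7
      · rw [if_neg hy]
        constructor
        · rintro ⟨h6, h7⟩
          exact ⟨h6, hy, by omega⟩
        · rintro ⟨h6, _, h7⟩
          exact ⟨h6, by omega⟩
    rw [h5]
    exact h4

end Pool.Agent.GM91
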